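import Pool.Agent.H50.ODG.Targets

/-!
# Board odg_modules, row KS4
-/

set_option autoImplicit false

open Pool.Agent.H57.CP Pool.Agent.H39.TO Pool.Agent.H39.OD Pool.Agent.H50.ODG

namespace Pool.Agent.H10.ODG

theorem pf_KS4 (hKN3 : T_KN3) (hKNT : T_KNT) (hKNS : T_KNS) (hKNL : T_KNL) : T_KS4 := by
  intro q k u v hk hkq hco h1 h2 hsum hrel
  have hf : (1 : ℚ) - 1 / 3 = 2 / 3 := by norm_num
  rw [hf] at h2
  obtain ⟨hv, c, hc6, hc⟩ := hKN3 _ _ h2
  have hq0 : (0 : ℝ) < q := by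
    have : 0 < q := by omega
    exact_mod_cast this
  have hqQ : (q : ℚ) ≠ 0 := by
    have : q ≠ 0 := by omega
    exact_mod_cast this
  have hpi := Real.pi_pos
  have hu : 0 < u ∧ u < 1 := by
    obtain ⟨a, b, _⟩ := hKNL _ _ _ (hKNS _ _ _ h1).2
    exact ⟨a, b⟩
  have huR : (0 : ℝ) < u ∧ (u : ℝ) < 1 := ⟨by exact_mod_cast hu.1, by exact_mod_cast hu.2⟩
  have hu2 : u ≤ 1 / 2 := hKNT _ _ (hKNS _ _ _ h1).1
  have hu2R : (u : ℝ) ≤ 1 / 2 := by
    have : (u : ℝ) ≤ ((1 / 2 : ℚ) : ℝ) := by exact_mod_cast hu2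
    push_cast at this
    exact this
  have hcn3 : cn (1 / 3) = 1 / 2 := by
    unfold cn
    push_cast
    rw [show (1 : ℝ) / 3 * Real.pi = Real.pi / 3 by ring, Real.cos_pi_div_three]
  have hcnv : cn v = Real.cos (((k : ℝ) - 1) * Real.pi / q) := by
    unfold cn
    rw [← hv]
    push_cast
    congr 1
    ring
  obtain ⟨θ, hθ⟩ : ∃ θ : ℝ, θ = Real.pi / q := ⟨_, rfl⟩
  have e1 : (k : ℝ) * Real.pi / q = ((k : ℝ) - 1) * θ + θ := by rw [hθ]; ring
  have e2 : ((k : ℝ) - 1) * Real.pi / q = ((k : ℝ) - 1) * θ := by rw [hθ]; ring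
  rw [hcn3, hcnv, e1, e2, ← hθ, Real.sin_add] at hrel
  have e3 : Real.sin (((k : ℝ) - 2) * θ) = Real.sin (((k : ℝ) - 1) * θ) * Real.cos θ -
      Real.cos (((k : ℝ) - 1) * θ) * Real.sin θ := by
    rw [← Real.sin_sub]; congr 1; ring
  have hkR : (2 : ℝ) ≤ k := by exact_mod_cast hk
  have hkqR : (k : ℝ) < q := by exact_mod_cast hkq
  have hθ0 : 0 < θ := by rw [hθ]; positivity
  have hθq : θ * q = Real.pi := by rw [hθ]; field_simp
  have hs1 : 0 < Real.sin (((k : ℝ) - 1) * θ) := by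
    refine Real.sin_pos_of_pos_of_lt_pi (by nlinarith) ?_
    nlinarith
  have hkey : Real.sin (((k : ℝ) - 1) * θ) * cn u = -(1 / 2) * Real.sin (((k : ℝ) - 2) * θ) := by
    rw [e3]; linarith
  rcases Nat.lt_or_ge k 3 with h3 | h3
  · have hk2 : k = 2 := by omega
    subst hk2
    have h0 : Real.sin ((((2 : ℕ) : ℝ) - 2) * θ) = 0 := by
      push_cast
      rw [sub_self, zero_mul, Real.sin_zero]
    rw [h0, mul_zero] at hkey
    have hcu : cn u = 0 := by
      rcases mul_eq_zero.1 hkey with h | h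
      · exact absurd h hs1.ne'
      · exact h
    have hu12 : u = 1 / 2 := by
      unfold cn at hcu
      by_contra hne
      have hlt : u < 1 / 2 := lt_of_le_of_ne hu2 hne
      have hltR : (u : ℝ) < 1 / 2 := by
        have : (u : ℝ) < ((1 / 2 : ℚ) : ℝ) := by exact_mod_cast hlt
        push_cast at this
        exact this
      have : 0 < Real.cos ((u : ℝ) * Real.pi) :=
        Real.cos_pos_of_mem_Ioo ⟨by nlinarith [huR.1], by nlinarith⟩
      linarith
    have hv1 : v = 1 / q := by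
      rw [← hv]; push_cast; norm_num
    have hqc : (q : ℚ) = c := by
      have h5 : (1 : ℚ) / q = 1 / c := by rw [← hv1, ← hv]; exact hc
      have hc0 : (c : ℚ) ≠ 0 := by
        have : c ≠ 0 := by omega
        exact_mod_cast this
      field_simp at h5
      exact h5.symm
    have hqc' : q = c := by exact_mod_cast hqc
    have hodd : Odd q := by
      rw [← Nat.not_even_iff_odd]
      intro he
      have := Nat.Coprime.eq_one_of_dvd hco he.two_dvd
      omega
    have h7 : 7 ≤ q := by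
      rcases hodd with ⟨t, ht⟩
      omega
    refine ⟨hsum, Or.inr (Or.inr (Or.inr (Or.inl ?_)))⟩
    refine Or.inr (Or.inr (Or.inl ⟨q, hodd, h7, hu12, hv1, ?_⟩))
    push_cast
    rfl
  · exfalso
    have h3R : (3 : ℝ) ≤ k := by exact_mod_cast h3
    have hs2 : 0 < Real.sin (((k : ℝ) - 2) * θ) := by
      refine Real.sin_pos_of_pos_of_lt_pi (by nlinarith) ?_
      nlinarith
    have hcu : 0 ≤ cn u := by
      unfold cn
      exact Real.cos_nonneg_of_mem_Icc ⟨by nlinarith [huR.1], by nlinarith⟩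
    nlinarith [mul_nonneg hs1.le hcu]

end Pool.Agent.H10.ODG
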