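import Pool.Agent.H50.ODG.Targets

/-!
# Board odg_modules, row VSA: the structure of the group of three reflections
-/

set_option autoImplicit false

open Pool.Agent.H57.CP Pool.Agent.H39.TO Pool.Agent.H39.OD Pool.Agent.H50.ODG

namespace Pool.Agent.H10.ODG

theorem vsa_comm (a b : V4) : mk a b = mk b a := by simp only [mk]; ring

theorem vsa_refl (a x : V4) (i : Fin 4) : refl a x i = x i + 2 * mk a x * a i := rfl

theorem vsa_fix {a x : V4} (h : mk x a = 0) : refl a x = x := by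
  ext i
  rw [vsa_refl, vsa_comm, h]
  ring

theorem vsa_nfix {a x : V4} (ha : mk a a = -1) (h : mk x a ≠ 0) : refl a x ≠ x := by
  intro hx
  have h1 : ∀ i, a i = 0 := by
    intro i
    have h2 := congrFun hx i
    rw [vsa_refl, vsa_comm] at h2
    have h3 : mk x a * a i = 0 := by linarith
    exact (mul_eq_zero.1 h3).resolve_left h
  have h2 : mk a a = 0 := by simp only [mk, h1]; ring
  rw [h2] at ha
  norm_num at ha

theorem vsa_ext {G : V4 →ₗ[ℝ] V4} {g h : Equiv.Perm H3} (hg : Ext G g) (hh : Ext G h) :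
    g = h := by
  refine Equiv.ext fun y => Subtype.ext ?_
  rw [← hg y, ← hh y]

theorem vsa_mk (hLOR : T_LOR) {l m : V4} (hl : mk l l = -1) (hm : mk m m = -1)
    {G : Module.End ℝ V4} (hG : G ∈ Submonoid.closure {(refl l : Module.End ℝ V4), refl m}) :
    ∀ u w : V4, mk (G u) (G w) = mk u w := by
  induction hG using Submonoid.closure_induction with
  | mem g hg =>
    rcases hg with rfl | rfl
    · exact (hLOR.2.2 l hl).1.1
    · exact (hLOR.2.2 m hm).1.1
  | one => intro u w; rfl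
  | mul g h _ _ hg hh => intro u w; rw [Module.End.mul_apply, Module.End.mul_apply, hg, hh]

/-- Row VSA. -/
theorem pf_VSA (hGGL : T_GGL) (hRFX : T_RFX) (hLII : T_LII) (hCFI : T_CFI) (hSPN : T_SPN)
    (hLOR : T_LOR) : T_VSA := by
  intro u v w x x' n0 n1 n2 C hu X
  obtain ⟨a1, a2, a3, a4, -, a6⟩ := hRFX n0 C.u0
  obtain ⟨b1, b2, b3, b4, -, b6⟩ := hRFX n1 C.u1
  obtain ⟨c1, c2, c3, c4, -, c6⟩ := hRFX n2 C.u2
  have hax : rf n0 x = x := Subtype.ext (by rw [a1, vsa_fix C.xa])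
  have hcx : rf n2 x = x := Subtype.ext (by rw [c1, vsa_fix C.xc])
  have hbx' : rf n1 x' = x' := Subtype.ext (by rw [b1, vsa_fix C.yb])
  have hcx' : rf n2 x' = x' := Subtype.ext (by rw [c1, vsa_fix C.yc])
  have hbx : rf n1 x ≠ x := by
    intro h
    have h1 := congrArg Subtype.val h
    rw [b1] at h1
    exact vsa_nfix C.u1 C.xb.ne h1
  have hax' : rf n0 x' ≠ x' := by
    intro h
    have h1 := congrArg Subtype.val h
    rw [a1] at h1
    exact vsa_nfix C.u0 C.ya.ne h1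
  obtain ⟨g1, g2, g3, g4⟩ := hGGL n0 n1 n2 C.u0 C.u1 C.u2
  obtain ⟨-, -, g5, g6⟩ := hGGL n0 n2 n1 C.u0 C.u2 C.u1
  obtain ⟨-, -, g7, g8⟩ := hGGL n1 n2 n0 C.u1 C.u2 C.u0
  obtain ⟨hli, -, C', -⟩ := hCFI u v w x x' n0 n1 n2 C
  obtain ⟨hli', -, -, -⟩ := hCFI v u w x' x n1 n0 n2 C'
  have hli2 : LinearIndependent ℝ ![n0, n2, n1] := by
    have h1 := hli.comp (![0, 2, 1] : Fin 3 → Fin 3) (by decide)
    have h2 : (![n0, n1, n2] : Fin 3 → V4) ∘ (![0, 2, 1] : Fin 3 → Fin 3) = ![n0, n2, n1] := by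
      funext i
      fin_cases i <;> rfl
    rw [h2] at h1
    exact h1
  have hone : ∀ {G : V4 →ₗ[ℝ] V4} {g : Equiv.Perm H3}, Ext G g → G = 1 → g = 1 := by
    intro G g hg h1
    refine Equiv.ext fun y => Subtype.ext ?_
    rw [← hg y, h1]
    rfl
  refine
    { ia := a2, ib := b2, ic := c2, aa := a3, bb := b3, cc := c3, a1 := a4, b1 := b4, c1 := c4
      ab := ?_, ac := ?_, bc := ?_, av := hax, cv := hcx, bv' := hbx', cv' := hcx'
      st := ?_, st' := ?_, ne := ?_, ia1 := ?_, ib1 := ?_, ic1 := ?_, q3 := ?_, di := ?_ }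
  · intro h
    exact hbx (by rw [← h]; exact hax)
  · intro h
    exact hax' (by rw [h]; exact hcx')
  · intro h
    exact hbx (by rw [h]; exact hcx)
  · intro g hg hgx
    obtain ⟨G, hG, hE⟩ := g1 g hg
    have h1 : G ∈ C2 n0 n2 := X.st G hG (by rw [hE x, hgx])
    obtain ⟨g', hg', hE'⟩ := g6 G h1
    rw [vsa_ext hE hE']
    exact hg'
  · intro g hg hgx
    obtain ⟨G, hG, hE⟩ := g1 g hg
    have h1 : G ∈ C2 n1 n2 := X.st' G hG (by rw [hE x', hgx])
    obtain ⟨g', hg', hE'⟩ := g8 G h1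
    rw [vsa_ext hE hE']
    exact hg'
  · intro g hg hgx
    obtain ⟨G, hG, hE⟩ := g1 g hg
    exact X.ne G hG (by rw [hE x, hgx])
  · intro g hg hg'
    obtain ⟨G, hG, hE⟩ := g3 g hg
    obtain ⟨G', hG', hE'⟩ := g5 g hg'
    have hGG : G = G' := hSPN G G' fun y => by rw [hE y, hE' y]
    subst hGG
    have h1 := hLII n1 n0 n2 G C.u1 C.u0 C.u2 hli' (vsa_mk hLOR C.u0 C.u1 hG)
      (by rw [Set.pair_comm]; exact hG) hG'
    rcases h1 with h1 | h1
    · exact Or.inl (hone hE h1)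
    · exact Or.inr (a6 g fun y => by rw [← hE y, h1])
  · intro g hg hg'
    obtain ⟨G, hG, hE⟩ := g3 g hg
    obtain ⟨G', hG', hE'⟩ := g7 g hg'
    have hGG : G = G' := hSPN G G' fun y => by rw [hE y, hE' y]
    subst hGG
    have h1 := hLII n0 n1 n2 G C.u0 C.u1 C.u2 hli (vsa_mk hLOR C.u0 C.u1 hG) hG hG'
    rcases h1 with h1 | h1
    · exact Or.inl (hone hE h1)
    · exact Or.inr (b6 g fun y => by rw [← hE y, h1])
  · intro g hg hg'
    obtain ⟨G, hG, hE⟩ := g5 g hg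
    obtain ⟨G', hG', hE'⟩ := g7 g hg'
    have hGG : G = G' := hSPN G G' fun y => by rw [hE y, hE' y]
    subst hGG
    have h1 := hLII n0 n2 n1 G C.u0 C.u2 C.u1 hli2 (vsa_mk hLOR C.u0 C.u2 hG) hG
      (by rw [Set.pair_comm]; exact hG')
    rcases h1 with h1 | h1
    · exact Or.inl (hone hE h1)
    · exact Or.inr (c6 g fun y => by rw [← hE y, h1])
  · left
    intro h
    have h1 : (((rf n0 * rf n2) ^ 2 : Equiv.Perm H3) x').1 = x'.1 := by rw [h]; rfl
    have h2 : (((rf n0 * rf n2) ^ 2 : Equiv.Perm H3) x').1 =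
        refl n0 (refl n2 (refl n0 (refl n2 x'.1))) := by
      rw [pow_two, Equiv.Perm.mul_apply, Equiv.Perm.mul_apply, Equiv.Perm.mul_apply, a1, c1, a1,
        c1]
    rw [h2, vsa_fix C.yc] at h1
    have hs : mk x'.1 n0 ≠ 0 := C.ya.ne
    have hcu : mk n0 n2 ≠ 0 := by rw [C.e02]; exact hu
    have e1 : ∀ y z : V4, ∀ r : ℝ, mk y (fun i => z i + r * n0 i) = mk y z + r * mk y n0 := by
      intro y z r; simp only [mk]; ring
    have hA : refl n0 x'.1 = fun i => x'.1 i + 2 * mk n0 x'.1 * n0 i := rfl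
    have hB : refl n2 (refl n0 x'.1) = fun i => (x'.1 i + 2 * mk n0 x'.1 * n0 i) +
        2 * (2 * mk n0 x'.1 * mk n0 n2) * n2 i := by
      funext i
      rw [vsa_refl, hA, e1, vsa_comm n2 x'.1, C.yc, vsa_comm n2 n0]
      ring
    have hC : mk n0 (refl n2 (refl n0 x'.1)) = mk n0 x'.1 + 2 * mk n0 x'.1 * mk n0 n0 +
        2 * (2 * mk n0 x'.1 * mk n0 n2) * mk n0 n2 := by
      rw [hB]; simp only [mk]; ring
    have hD : ∀ i, n2 i = -(2 * mk n0 n2) * n0 i := by
      intro i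
      have h3 := congrFun h1 i
      rw [vsa_refl, hC, hB, C.u0] at h3
      have h4 : 4 * mk n0 x'.1 * mk n0 n2 * (n2 i + 2 * mk n0 n2 * n0 i) = 0 := by
        simp only at h3
        linear_combination h3
      have h5 : 4 * mk n0 x'.1 * mk n0 n2 ≠ 0 := by
        have : mk n0 x'.1 ≠ 0 := by rw [vsa_comm]; exact hs
        positivity
      have h6 := (mul_eq_zero.1 h4).resolve_left h5
      linarith
    obtain ⟨c, hc⟩ : ∃ c, c = mk n0 n2 := ⟨_, rfl⟩
    rw [← hc] at hD hcu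
    have hE : mk x'.1 n2 = -(2 * c) * mk x'.1 n0 := by
      have h9 : n2 = fun i => -(2 * c) * n0 i := funext hD
      rw [h9]
      simp only [mk]
      ring
    rw [C.yc] at hE
    have h7 : c * mk x'.1 n0 = 0 := by linarith
    rcases mul_eq_zero.1 h7 with h8 | h8
    · exact hcu h8
    · exact hs h8
  · obtain ⟨ε, hε, hdi⟩ := X.di
    refine ⟨ε, hε, fun g hg => ?_⟩
    obtain ⟨G, hG, hE⟩ := g1 g hg
    obtain ⟨d1, d2, d3⟩ := hdi G hG
    rw [hE x] at d1
    rw [hE x'] at d2 d3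
    exact ⟨fun h => d1 fun h' => h (Subtype.ext h'), fun h => d2 fun h' => h (Subtype.ext h'), d3⟩

end Pool.Agent.H10.ODG
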